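import Pool.Agent.Helper94.BC.Pr

/-!
The finite conjugation invariant set of the simple factors.
-/

set_option autoImplicit false

open scoped Pointwise commutatorElement

namespace Pool.Agent.Helper7.BCP

open Pool.Agent.Helper94.BC

/-- The elements of `E` which lie in all `M w`, `w ≠ v`. -/
def Tv {G : Type} [Group G] {k : ℕ} (E : Subgroup G) (M : Fin k → Subgroup G) (v : Fin k) :
    Subgroup G := E ⊓ ⨅ w : {w : Fin k // w ≠ v}, M w.1

section

variable {G : Type} [Group G] {B : ℕ} {E : Subgroup G} {k : ℕ} {M : Fin k → Subgroup G}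
  {C : Subgroup G}

theorem mem_Tv {v : Fin k} {a : G} : a ∈ Tv E M v ↔ a ∈ E ∧ ∀ w, w ≠ v → a ∈ M w := by
  rw [Tv, Subgroup.mem_inf, Subgroup.mem_iInf]
  constructor
  · rintro ⟨h1, h2⟩
    exact ⟨h1, fun w hw => h2 ⟨w, hw⟩⟩
  · rintro ⟨h1, h2⟩
    exact ⟨h1, fun w => h2 w.1 w.2⟩

theorem comm_le_of_nor {K A D : Subgroup G} (hA : A ≤ K) (hD : D ≤ K) (hnA : Nor K A)
    (hnD : Nor K D) : ⁅A, D⁆ ≤ A ⊓ D := by
  rw [Subgroup.commutator_le]
  intro a ha d hd
  rw [commutatorElement_def]
  refine ⟨?_, ?_⟩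
  · have e : a * d * a⁻¹ * d⁻¹ = a * (d * a⁻¹ * d⁻¹) := by group
    rw [e]
    exact A.mul_mem ha (hnA d (hD hd) _ (A.inv_mem ha))
  · exact D.mul_mem (hnD a (hA ha) d hd) (D.inv_mem hd)

theorem nor_finset_inf (h : Pr B E M C) (s : Finset (Fin k)) : Nor E (s.inf M) := by
  classical
  induction s using Finset.induction_on with
  | empty =>
    intro x _ n _
    rw [Finset.inf_empty]
    exact Subgroup.mem_top _
  | insert b s _ ih =>
    rw [Finset.inf_insert]
    exact nor_inf (h.nm b).nor ih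

theorem inf_fam_not_le (h : Pr B E M C) (v : Fin k) (s : Finset (Fin k)) (hv : v ∉ s) :
    ¬ E ⊓ s.inf M ≤ M v := by
  classical
  induction s using Finset.induction_on with
  | empty =>
    intro h1
    rw [Finset.inf_empty, inf_top_eq] at h1
    exact (h.nm v).nab ((Subgroup.commutator_le_self E).trans h1)
  | insert a s _ ih =>
    intro h1
    have hva : v ≠ a := fun e => hv (e ▸ Finset.mem_insert_self _ _)
    have hvs : v ∉ s := fun e => hv (Finset.mem_insert_of_mem e)
    have hns : Nor E (s.inf M) := nor_finset_inf h s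
    have hn1 : Nor E (E ⊓ s.inf M) := nor_inf (nor_self E) hns
    have h2 : ⁅M a, E ⊓ s.inf M⁆ ≤ M v := by
      refine (comm_le_of_nor (h.nm a).le inf_le_left (h.nm a).nor hn1).trans ?_
      refine le_trans ?_ h1
      rw [Finset.inf_insert]
      refine le_inf (inf_le_right.trans inf_le_left) (le_inf inf_le_left ?_)
      exact inf_le_right.trans inf_le_right
    rcases (h.nm v).prime (h.nm a).le inf_le_left (h.nm a).nor hn1 h2 with h3 | h3
    · rcases (h.nm a).max (M v) h3 (h.nm v).le (h.nm v).nor with h4 | h4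
      · exact hva (h.inj h4)
      · exact (h.nm v).nab (by rw [h4]; exact Subgroup.commutator_le_self E)
    · exact ih hvs h3

theorem Tv_not_le (h : Pr B E M C) (v : Fin k) : ¬ Tv E M v ≤ M v := by
  classical
  intro h1
  apply inf_fam_not_le h v (Finset.univ.erase v) (Finset.notMem_erase _ _)
  refine le_trans ?_ h1
  intro x hx
  rw [mem_Tv]
  refine ⟨hx.1, fun w hw => ?_⟩
  have h2 : (Finset.univ.erase v).inf M ≤ M w :=
    Finset.inf_le (Finset.mem_erase.mpr ⟨hw, Finset.mem_univ w⟩)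
  exact h2 hx.2

theorem card_Tv_le [Finite G] (h : Pr B E M C) (v : Fin k) : Nat.card (Tv E M v) ≤ B := by
  have h1 : M v ⊓ Tv E M v = ⊥ := by
    rw [eq_bot_iff, ← h.bot]
    intro x hx
    rw [Subgroup.mem_iInf]
    intro w
    by_cases hw : w = v
    · rw [hw]; exact hx.1
    · exact (mem_Tv.mp hx.2).2 w hw
  have h2 : (M v).relIndex (Tv E M v) = Nat.card (Tv E M v) := by
    rw [← Subgroup.inf_relIndex_right, h1, Subgroup.relIndex_bot_left]
  rw [← h2]
  refine le_trans ?_ (h.card v)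
  exact Subgroup.relIndex_le_of_le_right inf_le_left Subgroup.index_ne_zero_of_finite

/-- The set of the simple factors. -/
def Om (E : Subgroup G) (M : Fin k → Subgroup G) : Set G := ⋃ v, (Tv E M v : Set G)

theorem om_conj (h : Pr B E M C) (g : G) (a : G) (ha : a ∈ Om E M) : g * a * g⁻¹ ∈ Om E M := by
  rw [Om, Set.mem_iUnion] at ha ⊢
  obtain ⟨v, hv⟩ := ha
  rw [SetLike.mem_coe, mem_Tv] at hv
  obtain ⟨v', hv'⟩ := h.conj g v
  refine ⟨v', ?_⟩
  rw [SetLike.mem_coe, mem_Tv]
  refine ⟨h.nE.conj_mem a hv.1 g, fun w hw => ?_⟩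
  obtain ⟨u, hu⟩ := h.conj g⁻¹ w
  have h1 : (M u).map (MulAut.conj g).toMonoidHom = M w := by
    rw [← hu, Subgroup.map_map]
    ext x
    constructor
    · rintro ⟨y, hy, rfl⟩
      simpa [mul_assoc] using hy
    · intro hx
      exact ⟨x, hx, by simp [mul_assoc]⟩
  have huv : u ≠ v := by
    intro e
    apply hw
    apply h.inj
    rw [← h1, e, hv']
  rw [← h1, conj_map_mem]
  have e : g⁻¹ * (g * a * g⁻¹) * g = a := by group
  rw [e]
  exact hv.2 u huv

theorem om_sep (h : Pr B E M C) (g : G) (hg : ∀ a ∈ Om E M, g * a = a * g) : g = 1 := by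
  apply h.cent
  have hn : (Subgroup.closure (Om E M)).Normal := by
    constructor
    intro n hn x
    induction hn using Subgroup.closure_induction with
    | mem y hy => exact Subgroup.subset_closure (om_conj h x y hy)
    | one =>
      have e : x * 1 * x⁻¹ = 1 := by group
      rw [e]
      exact Subgroup.one_mem _
    | mul a b _ _ ha hb =>
      have e : x * (a * b) * x⁻¹ = (x * a * x⁻¹) * (x * b * x⁻¹) := by group
      rw [e]
      exact Subgroup.mul_mem _ ha hb
    | inv a _ ha =>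
      have e : x * a⁻¹ * x⁻¹ = (x * a * x⁻¹)⁻¹ := by group
      rw [e]
      exact Subgroup.inv_mem _ ha
  have hne : Subgroup.closure (Om E M) ≠ ⊥ := by
    intro h1
    have v : Fin k := ⟨0, h.pos⟩
    apply Tv_not_le h v
    intro x hx
    have h2 : x ∈ Subgroup.closure (Om E M) :=
      Subgroup.subset_closure (Set.mem_iUnion.mpr ⟨v, hx⟩)
    rw [h1, Subgroup.mem_bot] at h2
    rw [h2]
    exact Subgroup.one_mem _
  have hle := h.le_of_normal hn hne
  intro e he
  have h1 : ∀ y ∈ Subgroup.closure (Om E M), g * y = y * g := by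
    intro y hy
    induction hy using Subgroup.closure_induction with
    | mem y hy => exact hg y hy
    | one => rw [mul_one, one_mul]
    | mul a b _ _ ha hb => rw [← mul_assoc, ha, mul_assoc, hb, mul_assoc]
    | inv a _ ha =>
      calc g * a⁻¹ = a⁻¹ * (a * g) * a⁻¹ := by group
        _ = a⁻¹ * (g * a) * a⁻¹ := by rw [ha]
        _ = a⁻¹ * g := by group
  exact h1 e (hle he)

/-- The invariant separating set. -/
theorem omega [Finite G] (h : Pr B E M C) : ∃ U : Set G, U.Finite ∧
    (∀ g : G, ∀ a ∈ U, g * a * g⁻¹ ∈ U) ∧ (∀ g : G, (∀ a ∈ U, g * a = a * g) → g = 1) ∧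
    U.ncard ≤ k * B := by
  refine ⟨Om E M, Set.toFinite _, om_conj h, om_sep h, ?_⟩
  rw [Om]
  refine (Set.ncard_iUnion_le_of_fintype _).trans ?_
  refine (Finset.sum_le_card_nsmul _ _ B fun v _ => ?_).trans ?_
  · rw [← Nat.card_coe_set_eq]
    exact card_Tv_le h v
  · rw [Finset.card_univ, Fintype.card_fin, smul_eq_mul]

end

end Pool.Agent.Helper7.BCP
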