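import Pool.Agent.Helper7.BC.Short

/-!
Pushing an element with a word in short conjugates; the abelian letter.
-/

set_option autoImplicit false

open scoped Pointwise commutatorElement

namespace Pool.Agent.Helper7.BCP

open Pool.Agent.Helper94.BC Pool.Agent.Helper7.BC

/-- The conjugation action on an invariant set. -/
@[reducible] def conjSet {G : Type} [Group G] (U : Set G)
    (hU : ∀ g : G, ∀ a ∈ U, g * a * g⁻¹ ∈ U) : MulAction G U where
  smul g a := ⟨g * a.1 * g⁻¹, hU g a.1 a.2⟩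
  one_smul a := by
    apply Subtype.ext
    show 1 * a.1 * (1 : G)⁻¹ = a.1
    group
  mul_smul g h a := by
    apply Subtype.ext
    show g * h * a.1 * (g * h)⁻¹ = g * (h * a.1 * h⁻¹) * g⁻¹
    group

/-- A word in conjugates of `x` which is not trivial has a value which is not trivial on short
conjugates. -/
theorem word_push {G : Type} [Group G] (U : Set G) (hUf : U.Finite)
    (hUinv : ∀ g : G, ∀ a ∈ U, g * a * g⁻¹ ∈ U) (hUc : ∀ g : G, (∀ a ∈ U, g * a = a * g) → g = 1)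
    (X : Set G) (hX : Subgroup.closure X = ⊤) {n : ℕ} (w : FreeGroup (Fin n)) (x : G) (r : ℕ)
    (hx : x ∈ Bl X r) (g : Fin n → G) (h : FreeGroup.lift (fun i => g i * x * (g i)⁻¹) w ≠ 1) :
    ∃ g' : Fin n → G, (∀ i, g' i ∈ Bl X (U.ncard ^ (w.norm + 1))) ∧
      FreeGroup.lift (fun i => g' i * x * (g' i)⁻¹) w ≠ 1 ∧
      FreeGroup.lift (fun i => g' i * x * (g' i)⁻¹) w ∈
        Bl X ((r + 2 * U.ncard ^ (w.norm + 1)) * w.norm) := by
  classical
  let _ := conjSet U hUinv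
  have hfin : Finite U := hUf
  obtain ⟨a, ha, hne⟩ : ∃ a ∈ U, FreeGroup.lift (fun i => g i * x * (g i)⁻¹) w * a ≠
      a * FreeGroup.lift (fun i => g i * x * (g i)⁻¹) w := by
    by_contra hcon
    push Not at hcon
    exact h (hUc _ hcon)
  have hmove : FreeGroup.lift (fun i => g i * x * (g i)⁻¹) w • (⟨a, ha⟩ : U) ≠ ⟨a, ha⟩ := by
    intro h1
    apply hne
    have h2 : FreeGroup.lift (fun i => g i * x * (g i)⁻¹) w * a *
        (FreeGroup.lift (fun i => g i * x * (g i)⁻¹) w)⁻¹ = a := congrArg Subtype.val h1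
    exact mul_inv_eq_iff_eq_mul.mp h2
  obtain ⟨g', hg1, hg2⟩ := short_repl X hX w x g (⟨a, ha⟩ : U) hmove
  rw [Nat.card_coe_set_eq] at hg1
  refine ⟨g', hg1, ?_, ?_⟩
  · intro h1
    apply hg2
    rw [h1, one_smul]
  · apply ev_mem_bl
    intro i
    exact conj_mem_bl (hg1 i) hx

/-- The abelian letter. -/
theorem comm_letter {G : Type} [Group G] (E : Subgroup G) (hE : E.Normal) (hne : E ≠ ⊥)
    (hmin : ∀ L : Subgroup G, L.Normal → L ≤ E → L = ⊥ ∨ L = E)
    (hc : Subgroup.centralizer (E : Set G) = ⊥) {x : G} (hx : x ≠ 1) :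
    ∃ g : G, ⁅x, g * x * g⁻¹⁆ ≠ 1 := by
  by_contra hcon
  push Not at hcon
  have hcomm : ∀ g : G, x * (g * x * g⁻¹) = (g * x * g⁻¹) * x := fun g =>
    commutatorElement_eq_one_iff_mul_comm.mp (hcon g)
  set A := Subgroup.normalClosure ({x} : Set G) with hA
  have hAn : A.Normal := Subgroup.normalClosure_normal
  -- `A` is abelian
  have h1 : ∀ a ∈ A, ∀ g : G, a * (g * x * g⁻¹) = (g * x * g⁻¹) * a := by
    intro a ha g
    rw [hA, Subgroup.normalClosure] at ha
    induction ha using Subgroup.closure_induction with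
    | mem y hy =>
      rw [Group.mem_conjugatesOfSet_iff] at hy
      obtain ⟨z, hz, hzy⟩ := hy
      rw [Set.mem_singleton_iff] at hz
      rw [hz] at hzy
      obtain ⟨k, hk⟩ := isConj_iff.mp hzy
      have h2 := hcomm (k⁻¹ * g)
      rw [← hk]
      calc k * x * k⁻¹ * (g * x * g⁻¹)
          = k * (x * (k⁻¹ * g * x * (k⁻¹ * g)⁻¹)) * k⁻¹ := by group
        _ = k * ((k⁻¹ * g * x * (k⁻¹ * g)⁻¹) * x) * k⁻¹ := by rw [h2]
        _ = g * x * g⁻¹ * (k * x * k⁻¹) := by group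
    | one => rw [one_mul, mul_one]
    | mul b c _ _ hb hc => rw [mul_assoc, hc, ← mul_assoc, hb, mul_assoc]
    | inv b _ hb =>
      have h2 := hb
      calc b⁻¹ * (g * x * g⁻¹) = b⁻¹ * ((g * x * g⁻¹) * b) * b⁻¹ := by group
        _ = b⁻¹ * (b * (g * x * g⁻¹)) * b⁻¹ := by rw [h2]
        _ = g * x * g⁻¹ * b⁻¹ := by group
  have h2 : ∀ a ∈ A, ∀ b ∈ A, a * b = b * a := by
    intro a ha b hb
    rw [hA, Subgroup.normalClosure] at hb
    induction hb using Subgroup.closure_induction with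
    | mem y hy =>
      rw [Group.mem_conjugatesOfSet_iff] at hy
      obtain ⟨z, hz, hzy⟩ := hy
      rw [Set.mem_singleton_iff] at hz
      rw [hz] at hzy
      obtain ⟨k, hk⟩ := isConj_iff.mp hzy
      rw [← hk]
      exact h1 a ha k
    | one => rw [one_mul, mul_one]
    | mul b c _ _ hb hc => rw [← mul_assoc, hb, mul_assoc, hc, mul_assoc]
    | inv b _ hb =>
      calc a * b⁻¹ = b⁻¹ * (b * a) * b⁻¹ := by group
        _ = b⁻¹ * (a * b) * b⁻¹ := by rw [hb]
        _ = b⁻¹ * a := by group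
  have hxA : x ∈ A := Subgroup.subset_normalClosure (Set.mem_singleton x)
  have h3 : (A ⊓ E).Normal := inferInstance
  rcases hmin _ h3 inf_le_right with h4 | h4
  · apply hx
    have h5 : x ∈ Subgroup.centralizer (E : Set G) := by
      rw [Subgroup.mem_centralizer_iff]
      intro e he
      have h6 : ⁅x, e⁆ ∈ A ⊓ E := by
        rw [commutatorElement_def]
        refine ⟨?_, ?_⟩
        · have e1 : x * e * x⁻¹ * e⁻¹ = x * (e * x⁻¹ * e⁻¹) := by group
          rw [e1]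
          exact A.mul_mem hxA (hAn.conj_mem _ (A.inv_mem hxA) e)
        · exact E.mul_mem (hE.conj_mem e he x) (E.inv_mem he)
      rw [h4, Subgroup.mem_bot, commutatorElement_eq_one_iff_mul_comm] at h6
      exact h6.symm
    rw [hc, Subgroup.mem_bot] at h5
    exact h5
  · apply hne
    rw [eq_bot_iff, ← hc]
    intro e he
    rw [Subgroup.mem_centralizer_iff]
    intro e' he'
    have h5 : E ≤ A := by rw [← h4]; exact inf_le_left
    exact h2 e' (h5 he') e (h5 he)

/-- The abelian letter, pushed: a short commutator. -/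
theorem comm_push {G : Type} [Group G] (E : Subgroup G) (hE : E.Normal) (hne : E ≠ ⊥)
    (hmin : ∀ L : Subgroup G, L.Normal → L ≤ E → L = ⊥ ∨ L = E)
    (hc : Subgroup.centralizer (E : Set G) = ⊥) (U : Set G) (hUf : U.Finite)
    (hUinv : ∀ g : G, ∀ a ∈ U, g * a * g⁻¹ ∈ U) (hUc : ∀ g : G, (∀ a ∈ U, g * a = a * g) → g = 1)
    (X : Set G) (hX : Subgroup.closure X = ⊤) (x : G) (r : ℕ) (hx : x ∈ Bl X r) (hx1 : x ≠ 1) :
    ∃ g g' : G, ⁅g * x * g⁻¹, g' * x * g'⁻¹⁆ ≠ 1 ∧
      ⁅g * x * g⁻¹, g' * x * g'⁻¹⁆ ∈ Bl X ((r + 2 * U.ncard ^ 5) * 4) := by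
  classical
  obtain ⟨h, hh⟩ := comm_letter E hE hne hmin hc hx1
  let w : FreeGroup (Fin 2) := ⁅FreeGroup.of (0 : Fin 2), FreeGroup.of (1 : Fin 2)⁆
  have hlift : ∀ c : Fin 2 → G, FreeGroup.lift c w = ⁅c 0, c 1⁆ := by
    intro c
    show FreeGroup.lift c ⁅FreeGroup.of (0 : Fin 2), FreeGroup.of (1 : Fin 2)⁆ = _
    rw [map_commutatorElement, FreeGroup.lift_apply_of, FreeGroup.lift_apply_of]
  have hnorm : w.norm = 4 := by
    decide
  obtain ⟨g', _, h2, h3⟩ := word_push U hUf hUinv hUc X hX w x r hx ![1, h] (by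
    rw [hlift]
    simpa using hh)
  rw [hlift] at h2 h3
  rw [hnorm] at h3
  exact ⟨g' 0, g' 1, h2, h3⟩

end Pool.Agent.Helper7.BCP
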