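import Pool.Agent.Helper52.BC.Blk

/-!
Reduction of the chief factor estimate to the case of a minimal normal subgroup with trivial centraliser.
-/

set_option autoImplicit false

open scoped Pointwise commutatorElement

namespace Pool.Agent.Helper7.BCP

open Pool.Agent.Helper94.BC

/-- The estimate for a minimal normal subgroup with trivial centraliser. -/
def Chief0 (B κ : ℕ) : Prop :=
  ∀ (G : Type) [Group G] [Finite G] (S : Set G), Cls B G → Subgroup.closure S = ⊤ →
    ∀ E : Subgroup G, E.Normal → E ≠ ⊥ →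
      (∀ L : Subgroup G, L.Normal → L ≤ E → L = ⊥ ∨ L = E) →
      Subgroup.centralizer (E : Set G) = ⊥ →
      ∃ k : ℕ, 1 ≤ k ∧ 2 ^ k ≤ Nat.card (Bl S ((κ * k) ^ κ)) ∧ Nat.card E ≤ B ^ k

/-- The estimate for a non-abelian chief factor. -/
theorem chiefP_of_chief0 {B κ : ℕ} (h0 : Chief0 B κ) (G : Type) [Group G] [Finite G] (S : Set G)
    (hcls : Cls B G) (hS : Subgroup.closure S = ⊤) (N E : Subgroup G) (hN : N.Normal)
    (hE : E.Normal) (hNE : N < E)
    (hmin : ∀ L : Subgroup G, L.Normal → N ≤ L → L ≤ E → L = N ∨ L = E) (hab : ¬ ⁅E, E⁆ ≤ N) :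
    ∃ k : ℕ, 1 ≤ k ∧ 2 ^ k ≤ Nat.card (Bl S ((κ * k) ^ κ)) ∧ N.relIndex E ≤ B ^ k := by
  classical
  set C0 := cen ⊤ N E (nor_of_normal ⊤ hN) with hC0
  have hC0n : C0.Normal := normal_of_nor (cen_nor _ (nor_of_normal ⊤ hE))
  have hNC0 : N ≤ C0 := le_cen _ le_top le_top
  have hEC : E ⊓ C0 = N := by
    have hn : (E ⊓ C0).Normal := inferInstance
    rcases hmin (E ⊓ C0) hn (le_inf hNE.le hNC0) inf_le_left with h1 | h1
    · exact h1
    · exfalso
      apply hab
      rw [Subgroup.commutator_le]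
      intro a ha b hb
      have h2 : a ∈ C0 := by
        have : a ∈ E ⊓ C0 := by rw [h1]; exact ha
        exact this.2
      exact h2.2 b hb
  let f := QuotientGroup.mk' C0
  have hf : Function.Surjective f := QuotientGroup.mk'_surjective C0
  have hker : f.ker = C0 := QuotientGroup.ker_mk' C0
  have hf1 : ∀ x, f x = 1 ↔ x ∈ C0 := fun x => QuotientGroup.eq_one_iff x
  have hcls' : Cls B (G ⧸ C0) := Pool.Agent.Helper52.BC.cls_surj hcls f hf
  have hS' : Subgroup.closure (f '' S) = ⊤ := by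
    rw [← MonoidHom.map_closure, hS, Subgroup.map_top_of_surjective _ hf]
  have hE' : (E.map f).Normal := hE.map f hf
  have hne : E.map f ≠ ⊥ := by
    intro h1
    rw [Subgroup.map_eq_bot_iff, hker] at h1
    have h2 : E ⊓ C0 = E := inf_eq_left.mpr h1
    rw [hEC] at h2
    exact hNE.ne h2
  have hmin' : ∀ L : Subgroup (G ⧸ C0), L.Normal → L ≤ E.map f → L = ⊥ ∨ L = E.map f := by
    intro L' hL' hle
    have h1 : (E ⊓ L'.comap f).Normal := by
      have := hL'.comap f
      infer_instance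
    have h2 : N ≤ E ⊓ L'.comap f := by
      refine le_inf hNE.le fun x hx => ?_
      rw [Subgroup.mem_comap, (hf1 x).mpr (hNC0 hx)]
      exact Subgroup.one_mem _
    rcases hmin _ h1 h2 inf_le_left with h3 | h3
    · left
      rw [eq_bot_iff]
      intro y hy
      obtain ⟨e, he, rfl⟩ := hle hy
      have h4 : e ∈ E ⊓ L'.comap f := ⟨he, hy⟩
      rw [h3] at h4
      rw [Subgroup.mem_bot]
      exact (hf1 e).mpr (hNC0 h4)
    · right
      refine le_antisymm hle ?_
      rintro _ ⟨e, he, rfl⟩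
      have h4 : e ∈ E ⊓ L'.comap f := by rw [h3]; exact he
      exact h4.2
  have hcen : Subgroup.centralizer ((E.map f : Subgroup (G ⧸ C0)) : Set (G ⧸ C0)) = ⊥ := by
    rw [eq_bot_iff]
    intro y hy
    obtain ⟨g, rfl⟩ := hf y
    rw [Subgroup.mem_centralizer_iff] at hy
    rw [Subgroup.mem_bot, hf1]
    refine ⟨Subgroup.mem_top g, fun e he => ?_⟩
    have h1 := hy (f e) ⟨e, he, rfl⟩
    rw [← hEC]
    refine ⟨?_, ?_⟩
    · rw [commutatorElement_def]
      exact E.mul_mem (hE.conj_mem e he g) (E.inv_mem he)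
    · have h2 : f ⁅g, e⁆ = 1 := by
        rw [map_commutatorElement, commutatorElement_eq_one_iff_mul_comm]
        exact h1.symm
      exact (hf1 _).mp h2
  obtain ⟨k, hk1, hk2, hk3⟩ := h0 (G ⧸ C0) (f '' S) hcls' hS' (E.map f) hE' hne hmin' hcen
  refine ⟨k, hk1, ?_, ?_⟩
  · refine hk2.trans ?_
    rw [← image_bl]
    exact Nat.card_image_le (Set.toFinite _)
  · refine le_trans (le_of_eq ?_) hk3
    rw [← Subgroup.relIndex_ker, hker, ← hEC, Subgroup.inf_relIndex_left]

end Pool.Agent.Helper7.BCP
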