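import Pool.Agent.Helper94.BC.Pr
import Pool.Agent.Helper52.RB.Letter
import Pool.Agent.Helper7.BCP.Push
import Pool.Agent.Helper7.BCP.Omega

/-!
One round: from a short non-trivial element of `K` to a short non-trivial element of the next term.
-/

set_option autoImplicit false

open scoped Pointwise commutatorElement

namespace Pool.Agent.Helper7.BCP

open Pool.Agent.Helper94.BC Pool.Agent.Helper7.BC Pool.Agent.Helper52.RB

theorem lift_mem {G : Type} [Group G] {n : ℕ} (A : Subgroup G) (y : Fin n → G)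
    (hy : ∀ i, y i ∈ A) (w : FreeGroup (Fin n)) : FreeGroup.lift y w ∈ A := by
  have h2 : A.subtype.comp (FreeGroup.lift fun i => (⟨y i, hy i⟩ : A)) = FreeGroup.lift y := by
    ext i
    simp
  have h3 : ((FreeGroup.lift fun i => (⟨y i, hy i⟩ : A)) w : G) = FreeGroup.lift y w :=
    DFunLike.congr_fun h2 w
  rw [← h3]
  exact Subtype.prop _

/-- The numbers. -/
theorem round_num (B L k l : ℕ) (hk : 1 ≤ k) :
    (l + 2 * (k * B + 1) ^ (L + 1)) * (L + 1) ^ (B + 1) ≤
      (2 * (L + 1) ^ (B + 1) * (B + 1) ^ (L + 1) + L + 1) * l +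
        ((2 * (L + 1) ^ (B + 1) * (B + 1) ^ (L + 1) + L + 1) * k) ^
          (2 * (L + 1) ^ (B + 1) * (B + 1) ^ (L + 1) + L + 1) := by
  set A := (L + 1) ^ (B + 1) with hA
  set c := 2 * A * (B + 1) ^ (L + 1) + L + 1 with hc
  have hB1 : 1 ≤ (B + 1) ^ (L + 1) := Nat.one_le_pow _ _ (Nat.succ_pos _)
  have h1 : l * A ≤ c * l := by
    rw [Nat.mul_comm l A]
    refine Nat.mul_le_mul_right _ ?_
    have h2 : A * 1 ≤ A * (B + 1) ^ (L + 1) := Nat.mul_le_mul_left _ hB1
    have h3 : 2 * A * (B + 1) ^ (L + 1) = 2 * (A * (B + 1) ^ (L + 1)) := by ring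
    rw [hc, h3]
    omega
  have h2 : k * B + 1 ≤ k * (B + 1) := by
    rw [Nat.mul_add, Nat.mul_one]
    omega
  have h3 : 2 * (k * B + 1) ^ (L + 1) * A ≤ (c * k) ^ c := by
    calc 2 * (k * B + 1) ^ (L + 1) * A ≤ 2 * (k * (B + 1)) ^ (L + 1) * A :=
          Nat.mul_le_mul_right _ (Nat.mul_le_mul_left _ (Nat.pow_le_pow_left h2 _))
      _ = (2 * A * (B + 1) ^ (L + 1)) * k ^ (L + 1) := by rw [mul_pow]; ring
      _ ≤ c * k ^ (L + 1) := Nat.mul_le_mul_right _ (by rw [hc]; omega)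
      _ ≤ c ^ (L + 1) * k ^ (L + 1) :=
          Nat.mul_le_mul_right _ (Nat.le_self_pow (Nat.succ_ne_zero _) _)
      _ = (c * k) ^ (L + 1) := by rw [mul_pow]
      _ ≤ (c * k) ^ c := by
          refine Nat.pow_le_pow_right ?_ (by rw [hc]; omega)
          have : 1 ≤ c := by rw [hc]; omega
          exact Nat.mul_pos this hk
  rw [Nat.add_mul]
  exact Nat.add_le_add h1 h3

/-- One round: a non-trivial short element of `K` gives a non-trivial short element of the next term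
of the series. -/
theorem push_round (B : ℕ) : ∃ c : ℕ, 1 ≤ c ∧ ∀ (G : Type) [Group G] [Finite G] (S : Set G),
    Subgroup.closure S = ⊤ → Cls B G → ∀ (E : Subgroup G) (k : ℕ) (M : Fin k → Subgroup G)
      (C : Subgroup G), Pr B E M C → ∀ K : Subgroup G, K.Normal → C ≤ K →
      ∀ (l : ℕ) (x : G), x ∈ K → x ≠ 1 → x ∈ Bl S l →
      ∃ x' : G, x' ≠ 1 ∧ x' ∈ Bl S (c * l + (c * k) ^ c) ∧ x' ∈ ⁅K, K⁆ ∧
        ∀ L : Subgroup G, NM K L → C ≤ L → x' ∈ L := by
  classical
  choose n W hW using letterT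
  -- the maximal length
  obtain ⟨L, hL4, hL⟩ : ∃ L : ℕ, 4 ≤ L ∧ ∀ j, j ≤ B → ∀ w ∈ W j, w.norm ≤ L := by
    refine ⟨4 + ∑ j ∈ Finset.range (B + 1), ∑ w ∈ W j, w.norm, by omega, ?_⟩
    intro j hj w hw
    have h1 : w.norm ≤ ∑ w ∈ W j, w.norm :=
      Finset.single_le_sum (f := fun w : FreeGroup (Fin (n j)) => w.norm)
        (fun _ _ => Nat.zero_le _) hw
    have h2 : ∑ w ∈ W j, w.norm ≤ ∑ j ∈ Finset.range (B + 1), ∑ w ∈ W j, w.norm :=
      Finset.single_le_sum (f := fun j => ∑ w ∈ W j, w.norm)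
        (fun _ _ => Nat.zero_le _) (Finset.mem_range.mpr (by omega))
    omega
  refine ⟨2 * (L + 1) ^ (B + 1) * (B + 1) ^ (L + 1) + L + 1, by omega, ?_⟩
  intro G _ _ S hS hcls E k M C h K hK hCK l x hxK hx1 hxl
  obtain ⟨U, hUf, hUinv, hUc, hUn⟩ := omega h
  have hne : E ≠ ⊥ := by
    intro h1
    apply h.nab
    rw [h1]
    exact Subgroup.commutator_le_self _
  have hcen : Subgroup.centralizer (E : Set G) = ⊥ := by
    rw [eq_bot_iff]
    intro g hg
    rw [Subgroup.mem_bot]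
    apply h.cent
    intro e he
    exact ((Subgroup.mem_centralizer_iff.mp hg) e he).symm
  set D := 2 * (k * B + 1) ^ (L + 1) with hD
  have hDle : ∀ m, m ≤ L → 2 * U.ncard ^ (m + 1) ≤ D := by
    intro m hm
    refine Nat.mul_le_mul_left _ ?_
    calc U.ncard ^ (m + 1) ≤ (k * B + 1) ^ (m + 1) := Nat.pow_le_pow_left (by omega) _
      _ ≤ (k * B + 1) ^ (L + 1) := Nat.pow_le_pow_right (Nat.succ_pos _) (by omega)
  have hstep : ∀ r m, m ≤ L →
      (r + 2 * U.ncard ^ (m + 1)) * m + D ≤ (r + D) * (L + 1) := by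
    intro r m hm
    calc (r + 2 * U.ncard ^ (m + 1)) * m + D ≤ (r + D) * L + D :=
          Nat.add_le_add_right (Nat.mul_le_mul (Nat.add_le_add_left (hDle m hm) _) hm) _
      _ ≤ (r + D) * L + (r + D) := by omega
      _ = (r + D) * (L + 1) := by ring
  have key : ∀ s, s ≤ B → ∃ (y : G) (r : ℕ), y ≠ 1 ∧ y ∈ Bl S r ∧
      r + D ≤ (l + D) * (L + 1) ^ (s + 1) ∧ y ∈ ⁅K, K⁆ ∧
      ∀ N : Subgroup G, NM K N → C ≤ N → N.relIndex K ≤ s → y ∈ N := by
    intro s
    induction s with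
    | zero =>
      intro _
      obtain ⟨g, g', h1, h2⟩ := comm_push E h.nE hne h.min hcen U hUf hUinv hUc S hS x l hxl hx1
      refine ⟨_, _, h1, h2, ?_, ?_, ?_⟩
      · calc (l + 2 * U.ncard ^ 5) * 4 + D ≤ (l + D) * (L + 1) :=
              hstep l 4 hL4
          _ = (l + D) * (L + 1) ^ (0 + 1) := by ring
      · exact Subgroup.commutator_mem_commutator (hK.conj_mem x hxK g) (hK.conj_mem x hxK g')
      · intro N hN _ h0
        exfalso
        have h3 : N.relIndex K ≠ 0 := Subgroup.index_ne_zero_of_finite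
        omega
    | succ s ih =>
      intro hs
      obtain ⟨y, r, hy1, hyr, hr, hyK, hy⟩ := ih (by omega)
      by_cases hall : ∀ N : Subgroup G, NM K N → C ≤ N → N.relIndex K ≤ s + 1 → y ∈ N
      · refine ⟨y, r, hy1, hyr, hr.trans ?_, hyK, hall⟩
        exact Nat.mul_le_mul_left _ (Nat.pow_le_pow_right (Nat.succ_pos _) (by omega))
      · push Not at hall
        obtain ⟨N, hN, hCN, hNi, hyN⟩ := hall
        have hNi' : N.relIndex K = s + 1 := by
          by_contra hcon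
          exact hyN (hy N hN hCN (by omega))
        have hyK' : y ∈ K := Subgroup.commutator_le_self K hyK
        obtain ⟨g, -, w, hw, hwN⟩ := (hW (s + 1)).2 G ⊥ E K N (Fin k) M bot_le
          (h.E_le_C.trans hCN) hN hNi' (Nat.succ_ne_zero _) h.nm (fun _ => bot_le) h.inj h.conj
          (fun g _ hg => hCN ((h.memC g).mpr hg)) y hyK' hyN
        rw [Subgroup.mem_bot] at hwN
        obtain ⟨g', -, h2, h3⟩ := word_push U hUf hUinv hUc S hS w y r hyr g hwN
        refine ⟨_, _, h2, h3, ?_, ?_, ?_⟩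
        · have hwn : w.norm ≤ L := hL (s + 1) hs w hw
          calc (r + 2 * U.ncard ^ (w.norm + 1)) * w.norm + D ≤ (r + D) * (L + 1) :=
                hstep r w.norm hwn
            _ ≤ ((l + D) * (L + 1) ^ (s + 1)) * (L + 1) := Nat.mul_le_mul_right _ hr
            _ = (l + D) * (L + 1) ^ (s + 1 + 1) := by ring
        · apply lift_mem
          intro i
          have hcn : (⁅K, K⁆ : Subgroup G).Normal := Subgroup.commutator_normal K K
          exact hcn.conj_mem y hyK (g' i)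
        · intro N' hN' _ hi
          refine (law_rel ((hW (s + 1)).1 w hw) hN'.nor Subgroup.index_ne_zero_of_finite hi _
            (fun i => hK.conj_mem y hyK' (g' i))).1
  obtain ⟨y, r, hy1, hyr, hr, hyK, hy⟩ := key B le_rfl
  refine ⟨y, hy1, ?_, hyK, fun N hN hCN => hy N hN hCN (hcls K N hN)⟩
  refine bl_mono S ?_ hyr
  have h1 := round_num B L k l h.pos
  rw [← hD] at h1
  omega

end Pool.Agent.Helper7.BCP
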